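import Pool.Agent.W533.V.Defs

/-!
Path lemma and mean value inequality for the signed power.
-/

set_option autoImplicit false

namespace Pool.Agent.W101.UP

open Finset Pool.Agent.W533.V

/-- positive part to the power `q` -/
noncomputable def PP (q t : ℝ) : ℝ := (max t 0) ^ q

theorem PP_convex {q : ℝ} (hq : 1 ≤ q) : ConvexOn ℝ Set.univ (PP q) := by
  have h1 : ConvexOn ℝ Set.univ (fun t : ℝ => max t 0) :=
    (convexOn_id convex_univ).sup (convexOn_const 0 convex_univ)
  refine ⟨convex_univ, fun x _ y _ a b ha hb hab => ?_⟩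
  have h2 := h1.2 (Set.mem_univ x) (Set.mem_univ y) ha hb hab
  have h3 := (convexOn_rpow hq).2 (x := max x 0) (y := max y 0) (by simp) (by simp) ha hb hab
  refine le_trans ?_ h3
  unfold PP
  exact Real.rpow_le_rpow (le_max_right _ _) h2 (by linarith)

theorem PP_mono {q : ℝ} (hq : 1 ≤ q) {x y : ℝ} (h : x ≤ y) : PP q x ≤ PP q y := by
  unfold PP
  exact Real.rpow_le_rpow (le_max_right _ _) (max_le_max h le_rfl) (by linarith)

theorem PP_nonpos {q : ℝ} (hq : 1 ≤ q) {x : ℝ} (h : x ≤ 0) : PP q x = 0 := by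
  unfold PP
  rw [max_eq_right h, Real.zero_rpow (by linarith)]

theorem PP_pos {q : ℝ} {x : ℝ} (h : 0 ≤ x) : PP q x = x ^ q := by
  unfold PP
  rw [max_eq_left h]

theorem PP_inc {q : ℝ} (hq : 1 ≤ q) {x y d : ℝ} (hxy : x ≤ y) (hd : 0 ≤ d) :
    PP q (x + d) - PP q x ≤ PP q (y + d) - PP q y := by
  rcases eq_or_lt_of_le hd with rfl | hd
  · simp
  have hc := PP_convex hq
  have hL : 0 < y + d - x := by linarith
  set θ := d / (y + d - x) with hθ
  have hθ0 : 0 ≤ θ := by positivity
  have hθ1 : 0 ≤ 1 - θ := by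
    rw [hθ, sub_nonneg, div_le_one hL]; linarith
  have hm : θ * (y + d - x) = d := by
    rw [hθ]; field_simp
  have e1 := hc.2 (Set.mem_univ x) (Set.mem_univ (y + d)) hθ1 hθ0 (by ring)
  have e2 := hc.2 (Set.mem_univ x) (Set.mem_univ (y + d)) hθ0 hθ1 (by ring)
  have e3 : (1 - θ) • x + θ • (y + d) = x + d := by
    simp only [smul_eq_mul]; linear_combination hm
  have e4 : θ • x + (1 - θ) • (y + d) = y := by
    simp only [smul_eq_mul]; linear_combination -hm
  rw [e3] at e1
  rw [e4] at e2
  simp only [smul_eq_mul] at e1 e2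
  nlinarith [e1, e2]

theorem Phi_eq {q : ℝ} (hq : 1 ≤ q) (t : ℝ) : Phi q t = PP q t - PP q (-t) := by
  unfold Phi
  rcases lt_trichotomy t 0 with h | h | h
  · rw [PP_nonpos hq h.le, PP_pos (by linarith : (0 : ℝ) ≤ -t), abs_of_neg h]
    have : (-t) ^ q = (-t) * (-t) ^ (q - 1) := by
      rw [← Real.rpow_one_add' (by linarith) (by linarith)]
      congr 1; ring
    rw [this]; ring
  · subst h
    simp
  · rw [PP_nonpos hq (by linarith : -t ≤ 0), PP_pos h.le, abs_of_pos h]
    have : t ^ q = t * t ^ (q - 1) := by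
      rw [← Real.rpow_one_add' (by linarith) (by linarith)]
      congr 1; ring
    rw [this]; ring

/-- shrunk signed power -/
noncomputable def Phis (q s t : ℝ) : ℝ := PP q (t - s) - PP q (-t - s)

theorem step1_nonneg {q s u c d : ℝ} (hq : 1 ≤ q) (h : |u - c| ≤ s) (hd : 0 ≤ d) :
    0 ≤ Phis q s (c + d) - Phis q s c ∧
      Phis q s (c + d) - Phis q s c ≤ Phi q (u + d) - Phi q u := by
  rw [Phi_eq hq, Phi_eq hq]
  unfold Phis
  have hb := abs_le.1 h
  have a1 := PP_inc hq (x := c - s) (y := u) (d := d) (by linarith) hd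
  have a2 := PP_inc hq (x := -c - s - d) (y := -u - d) (d := d) (by linarith) hd
  have a3 : PP q (c - s) ≤ PP q (c - s + d) := PP_mono hq (by linarith)
  have a4 : PP q (-c - s - d) ≤ PP q (-c - s) := PP_mono hq (by linarith)
  have b1 : c + d - s = c - s + d := by ring
  have b2 : -(c + d) - s = -c - s - d := by ring
  have b3 : -c - s - d + d = -c - s := by ring
  have b4 : -u - d + d = -u := by ring
  have b5 : -(u + d) = -u - d := by ring
  rw [b3, b4] at a2
  rw [b1, b2, b5]
  constructor <;> linarith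

theorem step1 {q s u c : ℝ} (hq : 1 ≤ q) (h : |u - c| ≤ s) (d : ℝ) :
    |Phis q s (c + d) - Phis q s c| ≤ |Phi q (u + d) - Phi q u| := by
  rcases le_total 0 d with hd | hd
  · obtain ⟨h1, h2⟩ := step1_nonneg (d := d) hq h hd
    rw [abs_of_nonneg h1]
    exact h2.trans (le_abs_self _)
  · have h' : |(u + d) - (c + d)| ≤ s := by
      have : (u + d) - (c + d) = u - c := by ring
      rw [this]; exact h
    obtain ⟨h1, h2⟩ := step1_nonneg (d := -d) hq h' (by linarith)
    have e1 : c + d + -d = c := by ring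
    have e2 : u + d + -d = u := by ring
    rw [e1] at h1 h2
    rw [e2] at h2
    rw [abs_sub_comm, abs_of_nonneg h1, abs_sub_comm]
    exact h2.trans (le_abs_self _)

theorem two_half {q m : ℝ} (hq : 1 ≤ q) (hm : 0 ≤ m) : 2 * (m / 2) ^ q ≤ m ^ q := by
  rw [Real.div_rpow hm (by norm_num)]
  have h2 : (2 : ℝ) ≤ 2 ^ q := by
    calc (2 : ℝ) = 2 ^ (1 : ℝ) := by simp
      _ ≤ 2 ^ q := Real.rpow_le_rpow_of_exponent_le (by norm_num) hq
  have h3 : 0 ≤ m ^ q := Real.rpow_nonneg hm q
  rw [mul_div_assoc', div_le_iff₀ (by positivity)]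
  nlinarith

theorem step2 {q s x y : ℝ} (hq : 1 ≤ q) (hs : 0 ≤ s) (hm : 0 < x - y - 2 * s) :
    2 * ((x - y - 2 * s) / 2) ^ q ≤ Phis q s x - Phis q s y := by
  have hxy : y ≤ x := by linarith
  have m1 : PP q (y - s) ≤ PP q (x - s) := PP_mono hq (by linarith)
  have m2 : PP q (-x - s) ≤ PP q (-y - s) := PP_mono hq (by linarith)
  unfold Phis
  set m := x - y - 2 * s with hmdef
  have hbig : 2 * (m / 2) ^ q ≤ PP q (x - y) := by
    have : PP q m ≤ PP q (x - y) := PP_mono hq (by linarith)
    rw [PP_pos hm.le] at this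
    exact (two_half hq hm.le).trans this
  rcases le_or_gt s y with h1 | h1
  · have := PP_inc hq (x := 0) (y := y - s) (d := x - y) (by linarith) (by linarith)
    have e1 : y - s + (x - y) = x - s := by ring
    rw [e1, zero_add, PP_nonpos hq le_rfl] at this
    linarith
  · rcases le_or_gt x (-s) with h2 | h2
    · have := PP_inc hq (x := 0) (y := -x - s) (d := x - y) (by linarith) (by linarith)
      have e1 : -x - s + (x - y) = -y - s := by ring
      rw [e1, zero_add, PP_nonpos hq le_rfl] at this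
      linarith
    · have z1 : PP q (y - s) = 0 := PP_nonpos hq (by linarith)
      have z2 : PP q (-x - s) = 0 := PP_nonpos hq (by linarith)
      have hc := (PP_convex hq).2 (Set.mem_univ (x - s)) (Set.mem_univ (-y - s))
        (by norm_num : (0 : ℝ) ≤ 1 / 2) (by norm_num : (0 : ℝ) ≤ 1 / 2) (by norm_num)
      simp only [smul_eq_mul] at hc
      have e1 : 1 / 2 * (x - s) + 1 / 2 * (-y - s) = m / 2 := by rw [hmdef]; ring
      rw [e1, PP_pos (by linarith : 0 ≤ m / 2)] at hc
      rw [z1, z2]
      linarith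

theorem path : S_Path := by
  intro q hq T u Lg
  set s := ∑ l ∈ range T \ Lg, |u (l + 1) - u l| with hs
  set A := ∑ l ∈ range T ∩ Lg, |Phi q (u (l + 1)) - Phi q (u l)| with hA
  have hs0 : 0 ≤ s := Finset.sum_nonneg fun _ _ => abs_nonneg _
  have hA0 : 0 ≤ A := Finset.sum_nonneg fun _ _ => abs_nonneg _
  let c : ℕ → ℝ := fun l => u 0 + ∑ k ∈ range l, (if k ∈ Lg then u (k + 1) - u k else 0)
  have hc0 : c 0 = u 0 := by simp [c]
  have hcs : ∀ l, c (l + 1) = c l + (if l ∈ Lg then u (l + 1) - u l else 0) := by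
    intro l
    simp only [c]
    rw [Finset.sum_range_succ, add_assoc]
  have hdiff : ∀ l, u l - c l = ∑ k ∈ range l \ Lg, (u (k + 1) - u k) := by
    intro l
    have h1 : u l = u 0 + ∑ k ∈ range l, (u (k + 1) - u k) := by
      rw [Finset.sum_range_sub]; ring
    have h2 : ∑ k ∈ range l \ Lg, (u (k + 1) - u k)
        = ∑ k ∈ range l, (if k ∈ Lg then 0 else u (k + 1) - u k) := by
      rw [Finset.sdiff_eq_filter, Finset.sum_filter]
      refine Finset.sum_congr rfl fun k _ => ?_
      by_cases hk : k ∈ Lg <;> simp [hk]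
    rw [h2]
    simp only [c]
    rw [h1]
    have h3 : ∑ k ∈ range l, (u (k + 1) - u k) =
        ∑ k ∈ range l, (if k ∈ Lg then u (k + 1) - u k else 0) +
        ∑ k ∈ range l, (if k ∈ Lg then 0 else u (k + 1) - u k) := by
      rw [← Finset.sum_add_distrib]
      refine Finset.sum_congr rfl fun k _ => ?_
      by_cases hk : k ∈ Lg <;> simp [hk]
    rw [h3]
    ring
  have hclose : ∀ l, l ≤ T → |u l - c l| ≤ s := by
    intro l hl
    rw [hdiff]
    refine (Finset.abs_sum_le_sum_abs _ _).trans ?_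
    refine Finset.sum_le_sum_of_subset_of_nonneg ?_ fun _ _ _ => abs_nonneg _
    exact Finset.sdiff_subset_sdiff (Finset.range_subset_range.2 hl) (Finset.Subset.refl _)
  have hvar : |Phis q s (c T) - Phis q s (c 0)| ≤ A := by
    rw [← Finset.sum_range_sub (fun l => Phis q s (c l)) T]
    refine (Finset.abs_sum_le_sum_abs _ _).trans ?_
    have h2 : A = ∑ k ∈ range T, (if k ∈ Lg then |Phi q (u (k + 1)) - Phi q (u k)| else 0) := by
      rw [hA, ← Finset.filter_mem_eq_inter, Finset.sum_filter]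
    rw [h2]
    refine Finset.sum_le_sum fun l hl => ?_
    rw [Finset.mem_range] at hl
    rw [hcs]
    by_cases hk : l ∈ Lg
    · simp only [hk, if_true]
      have h3 := step1 hq (hclose l hl.le) (u (l + 1) - u l)
      have e1 : u l + (u (l + 1) - u l) = u (l + 1) := by ring
      rw [e1] at h3
      exact h3
    · simp [hk]
  have hmain : |c T - c 0| ≤ 2 * s + 2 * A ^ (1 / q) := by
    by_contra hcon
    push Not at hcon
    have hAq : 0 ≤ A ^ (1 / q) := Real.rpow_nonneg hA0 _
    set m := |c T - c 0| - 2 * s with hm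
    have hm0 : 2 * A ^ (1 / q) < m := by linarith
    have hmpos : 0 < m := by linarith
    have key : 2 * (m / 2) ^ q ≤ A := by
      rcases le_total (c 0) (c T) with h | h
      · have e : |c T - c 0| = c T - c 0 := abs_of_nonneg (by linarith)
        have h4 := step2 (q := q) (s := s) (x := c T) (y := c 0) hq hs0 (by rw [← e]; exact hmpos)
        rw [← e] at h4
        exact h4.trans ((le_abs_self _).trans hvar)
      · have e : |c T - c 0| = c 0 - c T := by rw [abs_sub_comm]; exact abs_of_nonneg (by linarith)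
        have h4 := step2 (q := q) (s := s) (x := c 0) (y := c T) hq hs0 (by rw [← e]; exact hmpos)
        rw [← e] at h4
        rw [abs_sub_comm] at hvar
        exact h4.trans ((le_abs_self _).trans hvar)
    have h5 : A < (m / 2) ^ q := by
      have h6 : A ^ (1 / q) < m / 2 := by linarith
      have h7 := Real.rpow_lt_rpow hAq h6 (by linarith : 0 < q)
      rw [← Real.rpow_mul hA0, one_div, inv_mul_cancel₀ (by linarith), Real.rpow_one] at h7
      exact h7
    have h8 : 0 ≤ (m / 2) ^ q := Real.rpow_nonneg (by linarith) _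
    linarith
  have hfin : |u T - u 0| ≤ |c T - c 0| + s := by
    have h1 : u T - u 0 = (c T - c 0) + (u T - c T) := by rw [hc0]; ring
    rw [h1]
    exact (abs_add_le _ _).trans (by linarith [hclose T le_rfl])
  linarith

theorem philip_aux {q : ℝ} (hq : 1 ≤ q) {x y : ℝ} (hx : 0 < x) (h : |y| ≤ x) :
    |Phi q x - Phi q y| ≤ q * x ^ (q - 1) * |x - y| := by
  have hb := abs_le.1 h
  have hxy : 0 ≤ x - y := by linarith
  have hx1 : 0 ≤ x ^ (q - 1) := Real.rpow_nonneg hx.le _
  rw [abs_of_nonneg hxy]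
  have hxq : x ^ q = x * x ^ (q - 1) := by
    rw [← Real.rpow_one_add' hx.le (by linarith)]
    congr 1; ring
  rcases le_or_gt 0 y with hy | hy
  · rw [Phi_eq hq, Phi_eq hq, PP_pos hx.le, PP_pos hy, PP_nonpos hq (by linarith : -x ≤ 0),
      PP_nonpos hq (by linarith : -y ≤ 0)]
    have hmono : y ^ q ≤ x ^ q := Real.rpow_le_rpow hy (by linarith) (by linarith)
    rw [sub_zero, sub_zero, abs_of_nonneg (by linarith)]
    have hB := one_add_mul_self_le_rpow_one_add (s := y / x - 1) (p := q)
      (by have : 0 ≤ y / x := by positivity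
          linarith) hq
    have e1 : 1 + (y / x - 1) = y / x := by ring
    rw [e1, Real.div_rpow hy hx.le] at hB
    have hxq0 : 0 < x ^ q := Real.rpow_pos_of_pos hx _
    rw [le_div_iff₀ hxq0] at hB
    have e2 : (1 + q * (y / x - 1)) * x ^ q = x ^ q - q * x ^ (q - 1) * (x - y) := by
      rw [hxq]
      field_simp
      ring
    rw [e2] at hB
    linarith
  · have hyq : |y| ^ (q - 1) ≤ x ^ (q - 1) := Real.rpow_le_rpow (abs_nonneg _) h (by linarith)
    unfold Phi
    rw [abs_of_pos hx]
    have h0 : 0 ≤ x * x ^ (q - 1) - y * |y| ^ (q - 1) := by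
      have : 0 ≤ |y| ^ (q - 1) := Real.rpow_nonneg (abs_nonneg _) _
      nlinarith
    rw [abs_of_nonneg h0]
    have h1 : x * x ^ (q - 1) - y * |y| ^ (q - 1) ≤ x ^ (q - 1) * (x - y) := by
      nlinarith
    have h2 : x ^ (q - 1) * (x - y) ≤ q * x ^ (q - 1) * (x - y) := by
      have : 0 ≤ x ^ (q - 1) * (x - y) := mul_nonneg hx1 hxy
      nlinarith
    exact h1.trans h2

theorem Phi_neg (q t : ℝ) : Phi q (-t) = - Phi q t := by
  unfold Phi; rw [abs_neg]; ring

theorem philip_aux2 {q : ℝ} (hq : 1 ≤ q) {x y : ℝ} (h : |y| ≤ |x|) :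
    |Phi q x - Phi q y| ≤ q * |x| ^ (q - 1) * |x - y| := by
  rcases lt_trichotomy x 0 with hx | hx | hx
  · have h1 := philip_aux (x := -x) (y := -y) hq (by linarith)
      (by rw [abs_neg, ← abs_of_neg hx]; exact h)
    rw [Phi_neg, Phi_neg] at h1
    have e1 : -Phi q x - -Phi q y = -(Phi q x - Phi q y) := by ring
    have e2 : -x - -y = -(x - y) := by ring
    rw [e1, e2, abs_neg, abs_neg] at h1
    rw [abs_of_neg hx]
    exact h1
  · subst hx
    have : y = 0 := by
      rw [abs_zero] at h
      exact abs_eq_zero.1 (le_antisymm h (abs_nonneg _))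
    subst this
    simp
  · have h1 := philip_aux (x := x) (y := y) hq hx (by rw [← abs_of_pos hx]; exact h)
    rw [abs_of_pos hx]
    exact h1

theorem philip : S_PhiLip := by
  intro q hq x y
  rcases le_total |y| |x| with h | h
  · rw [max_eq_left h]
    exact philip_aux2 hq h
  · rw [max_eq_right h, abs_sub_comm, abs_sub_comm x y]
    exact philip_aux2 hq h

end Pool.Agent.W101.UP
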